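import Mathlib
import Pool.Agent.Q154.NAdd4

set_option autoImplicit false

/-!
MP_52c2ea_lc, Q2: the product of two null-additive sets of reals is null-additive in the plane.
-/

namespace Pool.Agent.Results.MP_52c2ea_lc.ProductNullAdditive

open MeasureTheory
open scoped Pointwise

/-- A set `A` in the group `G` (here `G = ℝ` or `G = ℝ × ℝ`, with Lebesgue measure) is null-additive
if `A + N` is null for every null set `N`. -/
def NullAdditive {G : Type} [Add G] [MeasureSpace G] (A : Set G) : Prop :=
  ∀ N : Set G, volume N = 0 → volume (A + N) = 0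

/-- If `X, Y ⊆ ℝ` are null-additive, then `X × Y ⊆ ℝ × ℝ` is null-additive. -/
theorem result (X Y : Set ℝ) (hX : NullAdditive X) (hY : NullAdditive Y) :
    NullAdditive (X ×ˢ Y : Set (ℝ × ℝ)) :=
  fun N hN => Pool.Agent.Q154.NA.product_null X Y hX hY N hN

end Pool.Agent.Results.MP_52c2ea_lc.ProductNullAdditive
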